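import Pool.Agent.Helper38.TQ.Basic
import Pool.Agent.Helper38.TQ.PtHeight
import Pool.Agent.Helper38.TQ.Minor

/-!
# Orbits of endomorphisms of projective space over a function field: definitions

`k` is an algebraically closed field, `K` a function field of one variable over `k`, and the
endomorphism `F` of projective space is defined over `K`.
-/

set_option autoImplicit false

namespace Pool.Agent.Helper30.TKN

open MvPolynomial
open Pool.Agent.Helper16 (Place IsFunctionField)
open Pool.Agent.Helper36 (step iter)
open Pool.Agent.Helper38.TQ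

variable {ν : ℕ} {k K : Type} [Field k] [Field K] [Algebra k K]

/-- The polynomial `P` over `K` specialises at `b` to the polynomial `p` over `k`. -/
def RedP (b : Place k K) (P : MvPolynomial (Fin (ν + 1)) K) (p : MvPolynomial (Fin (ν + 1)) k) :
    Prop :=
  ∀ m, b.val (P.coeff m - algebraMap k K (p.coeff m)) < 1

/-- The polynomials `F` over `K` specialise at `b` to an endomorphism `f` of projective space
over `k`, of the same degree. -/
structure GoodRed (d : ℕ) (b : Place k K) (F : Fin (ν + 1) → MvPolynomial (Fin (ν + 1)) K)
    (f : Fin (ν + 1) → MvPolynomial (Fin (ν + 1)) k) : Prop where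
  endo : IsEndo d f
  red : ∀ i, RedP b (F i) (f i)

/-- The place `b` has good reduction. -/
def Good (d : ℕ) (b : Place k K) (F : Fin (ν + 1) → MvPolynomial (Fin (ν + 1)) K) : Prop :=
  ∃ f, GoodRed d b F f

/-- The Jacobian determinant. -/
noncomputable def jf {k : Type} [Field k] (F : Fin (ν + 1) → MvPolynomial (Fin (ν + 1)) k) :
    MvPolynomial (Fin (ν + 1)) k :=
  (Matrix.of fun i j => pderiv j (F i)).det

/-- The order at `b` of the Jacobian determinant at the point `y`. -/
noncomputable def joK (d : ℕ) (F : Fin (ν + 1) → MvPolynomial (Fin (ν + 1)) K) (b : Place k K)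
    (y : Fin (ν + 1) → K) : ℤ :=
  ((ν : ℤ) + 1) * ((d : ℤ) - 1) * WithZero.log (nrm b y) - WithZero.log (b.val (eval y (jf F)))

/-- There is no place of good reduction at which the point becomes preperiodic, with a cycle
outside the critical set. -/
def NoEtale (k : Type) {K : Type} [Field k] [Field K] [Algebra k K] (d : ℕ)
    (F : Fin (ν + 1) → MvPolynomial (Fin (ν + 1)) K) (x : Fin (ν + 1) → K) : Prop :=
  ∀ (b : Place k K) (f : Fin (ν + 1) → MvPolynomial (Fin (ν + 1)) k) (z : Fin (ν + 1) → k),
    GoodRed d b F f → Red b x z → ∀ n N : ℕ, 0 < N → PEq (iter f z n) (iter f z (n + N)) →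
      (mult f (iter f z n) N).det = 0

/-- The points `x` and `y` have the same reduction at `b`: all the minors are small. -/
def Same (b : Place k K) (x y : Fin (ν + 1) → K) : Prop :=
  ∀ p q, b.val (x p * y q - x q * y p) < nrm b x * nrm b y

end Pool.Agent.Helper30.TKN
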