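import Pool.Agent.Helper30.TKN.Good

/-!
# Good reduction: finiteness and orbits
-/

set_option autoImplicit false

namespace Pool.Agent.Helper30.TKN

open MvPolynomial
open Pool.Agent.Helper16 (Place IsFunctionField)
open Pool.Agent.Helper36 (step iter iter_zero iter_succ iter_succ' iter_add iter_map
  exists_nullstellensatz)
open Pool.Agent.Helper38.TQ

variable {ν : ℕ} {k K : Type} [Field k] [Field K] [Algebra k K]

theorem Good2_fin [IsAlgClosed k] (hK : IsFunctionField k K) (P : MvPolynomial (Fin (ν + 1)) K) :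
    {b : Place k K | ¬ ∀ m, b.val (P.coeff m) ≤ 1}.Finite := by
  by_cases hP : P = 0
  · refine (Set.finite_empty).subset ?_
    intro b hb
    refine hb fun m => ?_
    rw [hP, coeff_zero, map_zero]
    exact zero_le_one
  · refine (formHeight_support hK hP).subset ?_
    intro b hb h0
    refine hb fun m => ?_
    have h1 : 0 < gs b P := formHeight_pos hP
    have h2 : WithZero.log (gs b P) = 0 := h0
    have h3 : gs b P ≤ 1 := by
      by_contra hcon
      rw [not_le] at hcon
      have h4 := (WithZero.log_lt_log one_ne_zero h1.ne').2 hcon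
      rw [WithZero.log_one, h2] at h4
      exact lt_irrefl _ h4
    exact (formHeight_le b P m).trans h3

/-- Almost all places have good reduction. -/
theorem good_finite [IsAlgClosed k] [Algebra K ℂ] (hK : IsFunctionField k K) {d : ℕ}
    {F : Fin (ν + 1) → MvPolynomial (Fin (ν + 1)) K}
    (hF : IsEndo d fun i => map (algebraMap K ℂ) (F i)) : {b : Place k K | ¬ Good d b F}.Finite := by
  have hhom : ∀ i, (F i).IsHomogeneous d := by
    intro i m hm
    refine hF.hom i ?_
    rw [coeff_map]
    simpa using hm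
  obtain ⟨M, q, hq1, hq2⟩ := exists_nullstellensatz (L := ℂ) F hhom (by
    intro x hx
    refine hF.nz x fun i => ?_
    have h := hx i
    rw [eval_map]
    exact h)
  have hfin : ((⋃ i : Fin (ν + 1), {b : Place k K | ¬ ∀ m, b.val ((F i).coeff m) ≤ 1}) ∪
      ⋃ a : Fin (ν + 1) × Fin (ν + 1), {b : Place k K | ¬ ∀ m, b.val ((q a).coeff m) ≤ 1}).Finite :=
    (Set.finite_iUnion fun i => Good2_fin hK (F i)).union
      (Set.finite_iUnion fun a => Good2_fin hK (q a))
  refine hfin.subset ?_
  intro b hb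
  by_contra hcon
  apply hb
  rw [Set.mem_union, not_or, Set.mem_iUnion, Set.mem_iUnion, not_exists, not_exists] at hcon
  have h1 : ∀ i m, b.val ((F i).coeff m) ≤ 1 := fun i => not_not.1 (hcon.1 i)
  have h2 : ∀ a m, b.val ((q a).coeff m) ≤ 1 := fun a => not_not.1 (hcon.2 a)
  choose f hf1 hf2 using fun i => redP_exists hK b (hhom i) (h1 i)
  choose r hr1 hr2 using fun a => redP_exists hK b (hq1 a) (h2 a)
  refine ⟨f, ⟨hF.two_le, hf2, ?_⟩, hf1⟩
  intro x hx
  funext j
  have h3 : ∑ i, r (j, i) * f i = X j ^ (M + d) := by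
    refine RedP.unique (P := X j ^ (M + d)) ?_ ((redP_C_X b j).pow _)
    rw [← hq2 j]
    exact RedP.sum _ fun i _ => (hr1 (j, i)).mul (hf1 i)
  have h4 := congrArg (eval x) h3
  rw [map_sum, map_pow, eval_X] at h4
  simp only [map_mul, hx, mul_zero, Finset.sum_const_zero] at h4
  exact eq_zero_of_pow_eq_zero h4.symm

theorem GoodRed.step [IsAlgClosed k] {d : ℕ} {b : Place k K} {F : Fin (ν + 1) → MvPolynomial (Fin (ν + 1)) K}
    {f : Fin (ν + 1) → MvPolynomial (Fin (ν + 1)) k} (hF : ∀ i, (F i).IsHomogeneous d) (h : GoodRed d b F f)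
    {x : Fin (ν + 1) → K} {z : Fin (ν + 1) → k} (hx : Red b x z) :
    Red b (Pool.Agent.Helper36.step F x) (Pool.Agent.Helper36.step f z) := by
  obtain ⟨hz, c, hc, h1⟩ := hx
  refine ⟨step_ne_zero h.endo hz, c ^ d, pow_ne_zero _ hc, fun i => ?_⟩
  have h2 := (h.red i).eval (u := c • x) (z := z) h1
  rw [eval_smul_hom (hF i)] at h2
  have h3 : Pool.Agent.Helper36.step F x i = eval x (F i) :=
    congrArg (fun φ => φ (F i)) (coe_aeval_eq_eval x)
  have h4 : Pool.Agent.Helper36.step f z i = eval z (f i) :=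
    congrArg (fun φ => φ (f i)) (coe_aeval_eq_eval z)
  rw [h3, h4]
  exact h2

theorem GoodRed.iter [IsAlgClosed k] {d : ℕ} {b : Place k K} {F : Fin (ν + 1) → MvPolynomial (Fin (ν + 1)) K}
    {f : Fin (ν + 1) → MvPolynomial (Fin (ν + 1)) k} (hF : ∀ i, (F i).IsHomogeneous d) (h : GoodRed d b F f)
    {x : Fin (ν + 1) → K} {z : Fin (ν + 1) → k} (hx : Red b x z) (n : ℕ) :
    Red b (Pool.Agent.Helper36.iter F x n) (Pool.Agent.Helper36.iter f z n) := by
  induction n with
  | zero => exact hx
  | succ n ih =>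
    rw [iter_succ, iter_succ]
    exact h.step hF ih

end Pool.Agent.Helper30.TKN
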