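import Pool.Agent.Helper30.TKN.Growth
import Pool.Agent.Helper30.TKN.Good2
import Pool.Agent.Helper38.TQ.NonCrit

/-!
# Points specialising to a noncritical cycle, the map being defined over the function field
-/

set_option autoImplicit false

namespace Pool.Agent.Helper30.TKN

open MvPolynomial
open Pool.Agent.Helper16 (Place IsFunctionField)
open Pool.Agent.Helper36 (step iter)
open Pool.Agent.Helper38.TQ

theorem etale_dml {ν : ℕ} {k K : Type} [Field k] [IsAlgClosed k] [Field K] [Algebra k K]
    [Algebra k ℂ] [Algebra K ℂ] [IsScalarTower k K ℂ] (hK : IsFunctionField k K) {d : ℕ}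
    {F : Fin (ν + 1) → MvPolynomial (Fin (ν + 1)) K} (hF : ∀ i, (F i).IsHomogeneous d)
    (x : Fin (ν + 1) → K) (hx : x ≠ 0) (b : Place k K)
    (f : Fin (ν + 1) → MvPolynomial (Fin (ν + 1)) k) (hf : GoodRed d b F f)
    (z : Fin (ν + 1) → k) (hred : Red b x z) (n N : ℕ) (hN : 0 < N)
    (hper : PEq (iter f z n) (iter f z (n + N))) (hdet : (mult f (iter f z n) N).det ≠ 0)
    (c : ℂ) (hc : c ≠ 0) :
    Pool.Agent.Helper38.Sym.DMLgen (fun i => map (algebraMap K ℂ) (F i))
      (fun i => c * algebraMap K ℂ (x i)) := by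
  sorry

end Pool.Agent.Helper30.TKN
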