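import Pool.Agent.Helper30.TKN.MainN
import Pool.Agent.Helper30.TKN.Etale
import Pool.Agent.Helper38.TQ.Dim

/-!
# Orbits in projective space over a function field which meet a curve infinitely often
-/

set_option autoImplicit false

namespace Pool.Agent.Helper30.TKN

open MvPolynomial
open Pool.Agent.Helper16 (Place IsFunctionField)
open Pool.Agent.Helper36 (step iter iter_zero iter_succ iter_succ' iter_add iter_map)
open Pool.Agent.Helper38.TQ

variable {ν : ℕ}

/-- The orbit over `ℂ` of a multiple of a point over `K`. -/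
theorem orbit_eq {K : Type} [Field K] [Algebra K ℂ] {d : ℕ}
    {F : Fin (ν + 1) → MvPolynomial (Fin (ν + 1)) K}
    (hF : IsEndo d fun i => map (algebraMap K ℂ) (F i)) (x : Fin (ν + 1) → K) (c : ℂ) (n : ℕ) :
    (fun (x : Fin (ν + 1) → ℂ) (i : Fin (ν + 1)) =>
        eval x (map (algebraMap K ℂ) (F i)))^[n] (fun i => c * algebraMap K ℂ (x i)) =
      c ^ d ^ n • fun i => algebraMap K ℂ (iter F x n i) := by
  have h1 : (fun (x : Fin (ν + 1) → ℂ) (i : Fin (ν + 1)) =>
      eval x (map (algebraMap K ℂ) (F i))) = step fun i => map (algebraMap K ℂ) (F i) := by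
    funext x i
    rfl
  rw [h1]
  have h2 : (fun i => c * algebraMap K ℂ (x i)) = c • fun i => algebraMap K ℂ (x i) := rfl
  rw [h2]
  change iter (fun i => map (algebraMap K ℂ) (F i)) (c • fun i => algebraMap K ℂ (x i)) n = _
  rw [iter_smul hF]
  congr 1
  induction n with
  | zero => rfl
  | succ n ih =>
    rw [iter_succ, ih]
    funext i
    change eval _ (map (algebraMap K ℂ) (F i)) = algebraMap K ℂ (iter F x (n + 1) i)
    rw [iter_succ]
    exact (Pool.Agent.Helper38.Sym.map_eval_gen (algebraMap K ℂ) _ _).symm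

/-- An infinite set of natural numbers belongs to a free ultrafilter. -/
theorem exists_free {T : Set ℕ} (hT : T.Infinite) :
    ∃ U : Ultrafilter ℕ, Free U ∧ T ∈ (U : Filter ℕ) := by
  have h1 : (Filter.atTop ⊓ Filter.principal T).NeBot := by
    rw [← Nat.cofinite_eq_atTop, Filter.cofinite_inf_principal_neBot_iff]
    exact hT
  obtain ⟨U, hU⟩ := Ultrafilter.exists_le (Filter.atTop ⊓ Filter.principal T)
  refine ⟨U, fun m => ?_, ?_⟩
  · exact hU (Filter.mem_inf_of_left (Filter.eventually_ge_atTop m))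
  · exact hU (Filter.mem_inf_of_right (Filter.mem_principal_self T))

/-- If the orbit of a point of unbounded height, which meets the critical set only finitely often,
meets some curve infinitely often, then the point has the Dynamical Mordell-Lang property for all
closed sets. -/
theorem tkn_dml {k K : Type} [Field k] [IsAlgClosed k] [Field K] [Algebra k K] [Algebra k ℂ]
    [Algebra K ℂ] [IsScalarTower k K ℂ] (hK : IsFunctionField k K) {d : ℕ}
    {F : Fin (ν + 1) → MvPolynomial (Fin (ν + 1)) K}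
    (hF : IsEndo d fun i => map (algebraMap K ℂ) (F i))
    {x : Fin (ν + 1) → K} (hx : x ≠ 0) (hunb : ∀ B : ℤ, ∃ n, B < ht k (iter F x n))
    (hcrit : {n | eval (iter F x n) (jf F) = 0}.Finite) (c : ℂ) (hc : c ≠ 0)
    {S₀ : Set (MvPolynomial (Fin (ν + 1)) ℂ)} (hS₀ : ∀ g ∈ S₀, ∃ e, g.IsHomogeneous e)
    {l₀ l₁ : MvPolynomial (Fin (ν + 1)) ℂ} (h0 : l₀.IsHomogeneous 1) (h1 : l₁.IsHomogeneous 1)
    (hno : ∀ z : Fin (ν + 1) → ℂ, (∀ g ∈ S₀, eval z g = 0) → eval z l₀ = 0 → eval z l₁ = 0 →
      z = 0)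
    (hinf : {n : ℕ | ∀ g ∈ S₀, eval ((fun (x : Fin (ν + 1) → ℂ) (i : Fin (ν + 1)) =>
      eval x (map (algebraMap K ℂ) (F i)))^[n] (fun i => c * algebraMap K ℂ (x i))) g =
        0}.Infinite) :
    Pool.Agent.Helper38.Sym.DMLgen (fun i => map (algebraMap K ℂ) (F i))
      (fun i => c * algebraMap K ℂ (x i)) := by
  classical
  have hchar : CharZero k := (algebraMap k ℂ).charZero
  have hhom : ∀ i, (F i).IsHomogeneous d := fun i => homog_of_endo hF i
  by_cases hne : NoEtale k d F x
  · exfalso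
    obtain ⟨U, hU, hUT⟩ := exists_free hinf
    refine no_curve hK hF hx hunb hcrit hne hU (onCurve hS₀ h0 h1 hno ?_)
    filter_upwards [hUT] with n hn g hg
    obtain ⟨e, he⟩ := hS₀ g hg
    have h2 := hn g hg
    rw [orbit_eq hF, eval_smul_hom he, mul_eq_zero] at h2
    exact h2.resolve_left (pow_ne_zero _ (pow_ne_zero _ hc))
  · unfold NoEtale at hne
    push Not at hne
    obtain ⟨b, f, z, hf, hz, n, N, hN, hper, hdet⟩ := hne
    exact etale_dml hK hhom x hx b f hf z hz n N hN hper hdet c hc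

end Pool.Agent.Helper30.TKN
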