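import Pool.Agent.Helper30.TKN.Gs

/-!
# Good reduction
-/

set_option autoImplicit false

namespace Pool.Agent.Helper30.TKN

open MvPolynomial
open Pool.Agent.Helper16 (Place IsFunctionField)
open Pool.Agent.Helper36 (step iter iter_zero iter_succ iter_succ' iter_add iter_map
  exists_nullstellensatz)
open Pool.Agent.Helper38.TQ

variable {ν : ℕ} {k K : Type} [Field k] [Field K] [Algebra k K]

theorem RedP.unique {b : Place k K} {P : MvPolynomial (Fin (ν + 1)) K} {p q : MvPolynomial (Fin (ν + 1)) k}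
    (hp : RedP b P p) (hq : RedP b P q) : p = q := by
  sorry

theorem RedP.integral {b : Place k K} {P : MvPolynomial (Fin (ν + 1)) K} {p : MvPolynomial (Fin (ν + 1)) k}
    (hp : RedP b P p) (m : Fin (ν + 1) →₀ ℕ) : b.val (P.coeff m) ≤ 1 := by
  sorry

theorem redP_C_X (b : Place k K) (i : Fin (ν + 1)) : RedP b (X i) (X i) := by
  sorry

theorem RedP.add {b : Place k K} {P Q : MvPolynomial (Fin (ν + 1)) K} {p q : MvPolynomial (Fin (ν + 1)) k}
    (hp : RedP b P p) (hq : RedP b Q q) : RedP b (P + Q) (p + q) := by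
  sorry

theorem RedP.neg {b : Place k K} {P : MvPolynomial (Fin (ν + 1)) K} {p : MvPolynomial (Fin (ν + 1)) k}
    (hp : RedP b P p) : RedP b (-P) (-p) := by
  sorry

theorem RedP.mul {b : Place k K} {P Q : MvPolynomial (Fin (ν + 1)) K} {p q : MvPolynomial (Fin (ν + 1)) k}
    (hp : RedP b P p) (hq : RedP b Q q) : RedP b (P * Q) (p * q) := by
  sorry

theorem RedP.sum {b : Place k K} {ι : Type} (s : Finset ι) {P : ι → MvPolynomial (Fin (ν + 1)) K}
    {p : ι → MvPolynomial (Fin (ν + 1)) k} (h : ∀ i ∈ s, RedP b (P i) (p i)) :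
    RedP b (∑ i ∈ s, P i) (∑ i ∈ s, p i) := by
  sorry

theorem RedP.pow {b : Place k K} {P : MvPolynomial (Fin (ν + 1)) K} {p : MvPolynomial (Fin (ν + 1)) k}
    (hp : RedP b P p) (n : ℕ) : RedP b (P ^ n) (p ^ n) := by
  sorry

theorem RedP.pderiv {b : Place k K} {P : MvPolynomial (Fin (ν + 1)) K} {p : MvPolynomial (Fin (ν + 1)) k}
    (hp : RedP b P p) (j : Fin (ν + 1)) : RedP b (MvPolynomial.pderiv j P) (MvPolynomial.pderiv j p) := by
  sorry

/-- The Jacobian determinant specialises. -/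
theorem redP_jf {b : Place k K} {F : Fin (ν + 1) → MvPolynomial (Fin (ν + 1)) K}
    {f : Fin (ν + 1) → MvPolynomial (Fin (ν + 1)) k} (h : ∀ i, RedP b (F i) (f i)) : RedP b (jf F) (jf f) := by
  sorry

/-- Specialisation of values. -/
theorem RedP.eval {b : Place k K} {P : MvPolynomial (Fin (ν + 1)) K} {p : MvPolynomial (Fin (ν + 1)) k}
    (hp : RedP b P p) {u : Fin (ν + 1) → K} {z : Fin (ν + 1) → k}
    (hu : ∀ i, b.val (u i - algebraMap k K (z i)) < 1) :
    b.val (MvPolynomial.eval u P - algebraMap k K (MvPolynomial.eval z p)) < 1 := by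
  sorry

theorem redP_exists [IsAlgClosed k] (hK : IsFunctionField k K) (b : Place k K)
    {P : MvPolynomial (Fin (ν + 1)) K} {e : ℕ} (hP : P.IsHomogeneous e)
    (h : ∀ m, b.val (P.coeff m) ≤ 1) : ∃ p, RedP b P p ∧ p.IsHomogeneous e := by
  sorry

end Pool.Agent.Helper30.TKN
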