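import Pool.Agent.Helper30.TKN.Gs

/-!
# Growth of the heights
-/

set_option autoImplicit false

namespace Pool.Agent.Helper30.TKN

open MvPolynomial
open Pool.Agent.Helper16 (Place IsFunctionField)
open Pool.Agent.Helper36 (step iter iter_zero iter_succ iter_succ' iter_add iter_map
  exists_nullstellensatz)
open Pool.Agent.Helper38.TQ

variable {ν : ℕ} {k K : Type} [Field k] [IsAlgClosed k] [Field K] [Algebra k K] [Algebra K ℂ]

theorem homog_of_endo {d : ℕ} {F : Fin (ν + 1) → MvPolynomial (Fin (ν + 1)) K}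
    (hF : IsEndo d fun i => map (algebraMap K ℂ) (F i)) (i : Fin (ν + 1)) : (F i).IsHomogeneous d :=
  IsHomogeneous.of_map (algebraMap K ℂ).injective (hF.hom i)

theorem growth_aeval_zero {d : ℕ} {F : Fin (ν + 1) → MvPolynomial (Fin (ν + 1)) K}
    (hF : IsEndo d fun i => map (algebraMap K ℂ) (F i)) (y : Fin (ν + 1) → ℂ)
    (hy : ∀ i, aeval y (F i) = 0) : y = 0 := by
  refine hF.nz y fun i => ?_
  have h := hy i
  rw [eval_map]
  rw [aeval_def] at h
  exact h

theorem step_ne_zeroK {d : ℕ} {F : Fin (ν + 1) → MvPolynomial (Fin (ν + 1)) K}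
    (hF : IsEndo d fun i => map (algebraMap K ℂ) (F i)) {x : Fin (ν + 1) → K} (hx : x ≠ 0) :
    step F x ≠ 0 := by
  intro h
  apply hx
  have h1 : (fun i => algebraMap K ℂ (x i)) = 0 := by
    apply growth_aeval_zero hF
    intro i
    have h2 := congrFun h i
    have h3 : aeval x (F i) = 0 := h2
    have h4 : aeval (fun i => algebraMap K ℂ (x i)) (F i) = algebraMap K ℂ (aeval x (F i)) := by
      have h5 : (fun i => algebraMap K ℂ (x i)) = fun i => (Algebra.ofId K ℂ) (x i) := rfl
      rw [h5, ← comp_aeval_apply]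
      rfl
    rw [h4, h3, map_zero]
  funext i
  have h2 := congrFun h1 i
  exact (map_eq_zero (algebraMap K ℂ)).1 h2

theorem iter_ne_zeroK {d : ℕ} {F : Fin (ν + 1) → MvPolynomial (Fin (ν + 1)) K}
    (hF : IsEndo d fun i => map (algebraMap K ℂ) (F i)) {x : Fin (ν + 1) → K} (hx : x ≠ 0) (n : ℕ) :
    iter F x n ≠ 0 := by
  induction n with
  | zero => exact hx
  | succ n ih =>
    rw [iter_succ]
    exact step_ne_zeroK hF ih

theorem growth_loc (hK : IsFunctionField k K) {d : ℕ} {F : Fin (ν + 1) → MvPolynomial (Fin (ν + 1)) K}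
    (hF : IsEndo d fun i => map (algebraMap K ℂ) (F i)) :
    ∃ c : Place k K → ℤ, (Function.support c).Finite ∧ (∀ b, 0 ≤ c b) ∧
      ∀ (b : Place k K) (y : Fin (ν + 1) → K), y ≠ 0 →
        |WithZero.log (nrm b (step F y)) - d * WithZero.log (nrm b y)| ≤ c b := by
  classical
  have hhom := fun i => homog_of_endo hF i
  obtain ⟨M, q, hq, h⟩ := exists_nullstellensatz (L := ℂ) F hhom (growth_aeval_zero hF)
  have hsup : ∀ P : MvPolynomial (Fin (ν + 1)) K,
      (Function.support fun b : Place k K => max 0 (WithZero.log (gs b P))).Finite := by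
    intro P
    by_cases h0 : P = 0
    · rw [h0]
      simp [formHeight_zero]
    · refine (formHeight_support hK h0).subset fun b hb => ?_
      rw [Function.mem_support] at hb ⊢
      intro h1
      apply hb
      rw [h1, max_self]
  set c : Place k K → ℤ := fun b => ∑ i : Fin (ν + 1), max 0 (WithZero.log (gs b (F i))) +
    ∑ a : Fin (ν + 1) × Fin (ν + 1), max 0 (WithZero.log (gs b (q a))) with hc
  have hc1 : ∀ b : Place k K, 0 ≤ ∑ i : Fin (ν + 1), max 0 (WithZero.log (gs b (F i))) := fun b =>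
    Finset.sum_nonneg fun i _ => le_max_left _ _
  have hc2 : ∀ b : Place k K, 0 ≤ ∑ a : Fin (ν + 1) × Fin (ν + 1), max 0 (WithZero.log (gs b (q a))) := fun b =>
    Finset.sum_nonneg fun i _ => le_max_left _ _
  have hcF : ∀ (b : Place k K) i, gs b (F i) ≤ WithZero.exp (c b) := by
    intro b i
    apply WithZero.le_exp_of_log_le
    have h1 : max 0 (WithZero.log (gs b (F i))) ≤ ∑ i : Fin (ν + 1), max 0 (WithZero.log (gs b (F i))) :=
      Finset.single_le_sum (f := fun i => max 0 (WithZero.log (gs b (F i))))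
        (fun i _ => le_max_left _ _) (Finset.mem_univ i)
    have h2 := le_max_right 0 (WithZero.log (gs b (F i)))
    have h3 := hc2 b
    simp only [hc]
    linarith
  have hcq : ∀ (b : Place k K) a, gs b (q a) ≤ WithZero.exp (c b) := by
    intro b a
    apply WithZero.le_exp_of_log_le
    have h1 : max 0 (WithZero.log (gs b (q a))) ≤
        ∑ a : Fin (ν + 1) × Fin (ν + 1), max 0 (WithZero.log (gs b (q a))) :=
      Finset.single_le_sum (f := fun a => max 0 (WithZero.log (gs b (q a))))
        (fun i _ => le_max_left _ _) (Finset.mem_univ a)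
    have h2 := le_max_right 0 (WithZero.log (gs b (q a)))
    have h3 := hc1 b
    simp only [hc]
    linarith
  refine ⟨c, ?_, fun b => add_nonneg (hc1 b) (hc2 b), fun b y hy => ?_⟩
  · have h1 : ((⋃ i : Fin (ν + 1), Function.support fun b : Place k K =>
        max 0 (WithZero.log (gs b (F i)))) ∪ (⋃ a : Fin (ν + 1) × Fin (ν + 1),
        Function.support fun b : Place k K => max 0 (WithZero.log (gs b (q a))))).Finite :=
      (Set.finite_iUnion fun i => hsup _).union (Set.finite_iUnion fun a => hsup _)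
    refine h1.subset fun b hb => ?_
    rw [Function.mem_support] at hb
    by_contra hcon
    apply hb
    simp only [Set.mem_union, Set.mem_iUnion, Function.mem_support, not_or, not_exists,
      not_not] at hcon
    simp only [hc]
    rw [Finset.sum_eq_zero fun i _ => hcon.1 i, Finset.sum_eq_zero fun a _ => hcon.2 a, add_zero]
  · have hn0 := nrm_ne_zero (b := b) hy
    have hs0 := nrm_ne_zero (b := b) (step_ne_zeroK hF hy)
    have he0 : WithZero.exp (c b) ≠ 0 := WithZero.exp_ne_zero
    rw [abs_le]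
    constructor
    · -- the lower bound
      obtain ⟨i, hi⟩ := exists_val_eq_nrm b y
      have h1 : b.val (y i ^ (M + d)) ≤
          WithZero.exp (c b) * nrm b y ^ M * nrm b (step F y) := by
        have h2 := congrArg (eval y) (h i)
        rw [map_pow, eval_X, map_sum] at h2
        rw [← h2]
        refine b.val.map_sum_le fun j _ => ?_
        rw [map_mul, map_mul]
        refine mul_le_mul' ((low_val_eval_le b (hq _) y).trans (mul_le_mul' (hcq b _) le_rfl)) ?_
        have h3 : eval y (F j) = step F y j := by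
          rw [← coe_aeval_eq_eval]
          rfl
        rw [h3]
        exact val_le_nrm b (step F y) j
      rw [map_pow, hi, ← WithZero.log_le_log (pow_ne_zero _ hn0)
        (mul_ne_zero (mul_ne_zero he0 (pow_ne_zero _ hn0)) hs0),
        WithZero.log_mul (mul_ne_zero he0 (pow_ne_zero _ hn0)) hs0,
        WithZero.log_mul he0 (pow_ne_zero _ hn0), WithZero.log_exp, WithZero.log_pow,
        WithZero.log_pow, nsmul_eq_mul, nsmul_eq_mul] at h1
      push_cast at h1
      linarith
    · -- the upper bound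
      have h1 : nrm b (step F y) ≤ WithZero.exp (c b) * nrm b y ^ d := by
        refine nrm_le fun i => ?_
        have h3 : eval y (F i) = step F y i := by
          rw [← coe_aeval_eq_eval]
          rfl
        rw [← h3]
        exact (low_val_eval_le b (hhom i) y).trans (mul_le_mul' (hcF b i) le_rfl)
      rw [← WithZero.log_le_log hs0 (mul_ne_zero he0 (pow_ne_zero _ hn0)),
        WithZero.log_mul he0 (pow_ne_zero _ hn0), WithZero.log_exp, WithZero.log_pow,
        nsmul_eq_mul] at h1
      linarith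

theorem growth (hK : IsFunctionField k K) {d : ℕ} {F : Fin (ν + 1) → MvPolynomial (Fin (ν + 1)) K}
    (hF : IsEndo d fun i => map (algebraMap K ℂ) (F i)) :
    ∃ C : ℤ, 0 ≤ C ∧ ∀ y : Fin (ν + 1) → K, y ≠ 0 → |ht k (step F y) - d * ht k y| ≤ C := by
  obtain ⟨c, hcs, hc0, hc⟩ := growth_loc hK hF
  refine ⟨∑ᶠ b : Place k K, c b, finsum_nonneg hc0, fun y hy => ?_⟩
  have h1 := nrm_support hK y hy
  have h2 := nrm_support hK _ (step_ne_zeroK hF hy)
  have h3 : (Function.support fun b : Place k K => (d : ℤ) * WithZero.log (nrm b y)).Finite := by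
    refine h1.subset fun b hb => ?_
    rw [Function.mem_support] at hb ⊢
    exact right_ne_zero_of_mul hb
  unfold ht
  rw [mul_finsum, abs_le]
  constructor
  · have h4 : ∑ᶠ b : Place k K, (d : ℤ) * WithZero.log (nrm b y) ≤
        ∑ᶠ b : Place k K, (WithZero.log (nrm b (step F y)) + c b) := by
      refine finsum_le_finsum' h3 ((h2.union hcs).subset (Function.support_add _ _)) fun b => ?_
      have := (abs_le.1 (hc b y hy)).1
      linarith
    rw [finsum_add_distrib h2 hcs] at h4
    linarith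
  · have h4 : ∑ᶠ b : Place k K, WithZero.log (nrm b (step F y)) ≤
        ∑ᶠ b : Place k K, ((d : ℤ) * WithZero.log (nrm b y) + c b) := by
      refine finsum_le_finsum' h2 ((h3.union hcs).subset (Function.support_add _ _)) fun b => ?_
      have := (abs_le.1 (hc b y hy)).2
      linarith
    rw [finsum_add_distrib h3 hcs] at h4
    linarith

/-- Summation of the heights. -/
theorem sum_ht_le (hK : IsFunctionField k K) {d : ℕ} {F : Fin (ν + 1) → MvPolynomial (Fin (ν + 1)) K}
    (hF : IsEndo d fun i => map (algebraMap K ℂ) (F i)) {x : Fin (ν + 1) → K} (hx : x ≠ 0) :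
    ∃ C : ℤ, 0 ≤ C ∧ ∀ n₀ n : ℕ, n₀ ≤ n →
      ((d : ℤ) - 1) * ∑ l ∈ Finset.Ico n₀ n, ht k (iter F x l) ≤
        ht k (iter F x n) + C * (n + 1) := by
  obtain ⟨C, hC0, hC⟩ := growth hK hF
  refine ⟨C, hC0, fun n₀ n hn => ?_⟩
  have key : ((d : ℤ) - 1) * ∑ l ∈ Finset.Ico n₀ n, ht k (iter F x l) ≤
      ht k (iter F x n) - ht k (iter F x n₀) + C * (n - n₀) := by
    induction n, hn using Nat.le_induction with
    | base => simp
    | succ n hn ih =>
      rw [Finset.sum_Ico_succ_top hn, mul_add]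
      have h1 := (abs_le.1 (hC _ (iter_ne_zeroK hF hx n))).1
      rw [← iter_succ] at h1
      push_cast
      linarith
  have h0 := low_ht_nonneg hK (iter_ne_zeroK hF hx n₀)
  have h1 : (0 : ℤ) ≤ C * n₀ := mul_nonneg hC0 (by positivity)
  nlinarith

theorem growth_pow (c m : ℕ) : ∀ n, m + 2 * (c * (m + 4) + 1) ≤ n →
    c * (n + 1) < 2 ^ (n - m) := by
  intro n hn
  obtain ⟨j, rfl⟩ := Nat.exists_eq_add_of_le (show m ≤ n by omega)
  have h1 : m + j - m = j := by omega
  rw [h1]
  set s := j / 2 with hs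
  have hs1 : c * (m + 4) + 1 ≤ s := by omega
  have h2 : s + 1 ≤ 2 ^ s := Nat.lt_two_pow_self
  have h3 : (2 : ℕ) ^ (2 * s) ≤ 2 ^ j := Nat.pow_le_pow_right (by norm_num) (by omega)
  have h4 : (s + 1) * (s + 1) ≤ 2 ^ (2 * s) := by
    rw [two_mul, pow_add]
    exact Nat.mul_le_mul h2 h2
  have h5 : m + j + 1 ≤ (m + 4) * (s + 1) := by
    have : j ≤ 2 * s + 1 := by omega
    nlinarith
  calc c * (m + j + 1) ≤ c * ((m + 4) * (s + 1)) := Nat.mul_le_mul le_rfl h5
    _ = (c * (m + 4)) * (s + 1) := by ring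
    _ < (s + 1) * (s + 1) := Nat.mul_lt_mul_of_pos_right (by omega) (by omega)
    _ ≤ 2 ^ j := h4.trans h3

/-- Exponential growth. -/
theorem ht_growth (hK : IsFunctionField k K) {d : ℕ} {F : Fin (ν + 1) → MvPolynomial (Fin (ν + 1)) K}
    (hF : IsEndo d fun i => map (algebraMap K ℂ) (F i)) {x : Fin (ν + 1) → K} (hx : x ≠ 0)
    (hunb : ∀ B : ℤ, ∃ n, B < ht k (iter F x n)) (C : ℤ) :
    ∃ n₁ : ℕ, ∀ n, n₁ ≤ n → C * (n + 1) < ht k (iter F x n) := by
  obtain ⟨C₀, hC₀, hC⟩ := growth hK hF
  obtain ⟨m, hm⟩ := hunb C₀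
  have hd : (2 : ℤ) ≤ d := by exact_mod_cast hF.two_le
  have key : ∀ j : ℕ, (2 : ℤ) ^ j + C₀ ≤ ht k (iter F x (m + j)) := by
    intro j
    induction j with
    | zero => simp; omega
    | succ j ih =>
      have h1 := (abs_le.1 (hC _ (iter_ne_zeroK hF hx (m + j)))).1
      rw [← iter_succ] at h1
      have h2 : (0 : ℤ) ≤ 2 ^ j := by positivity
      have h3 : 0 ≤ ht k (iter F x (m + j)) := by linarith
      have h4 : 2 * ht k (iter F x (m + j)) ≤ d * ht k (iter F x (m + j)) :=
        mul_le_mul_of_nonneg_right hd h3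
      rw [show m + (j + 1) = m + j + 1 by omega, pow_succ]
      linarith
  refine ⟨m + 2 * (C.toNat * (m + 4) + 1), fun n hn => ?_⟩
  have h1 := growth_pow C.toNat m n hn
  have h2 := key (n - m)
  rw [show m + (n - m) = n by omega] at h2
  have h3 : ((C.toNat * (n + 1) : ℕ) : ℤ) < ((2 ^ (n - m) : ℕ) : ℤ) := by exact_mod_cast h1
  push_cast at h3
  have h4 : C ≤ (C.toNat : ℤ) := Int.self_le_toNat C
  have h5 : C * ((n : ℤ) + 1) ≤ (C.toNat : ℤ) * ((n : ℤ) + 1) :=
    mul_le_mul_of_nonneg_right h4 (by positivity)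
  linarith

/-- The points of the orbit are distinct. -/
theorem distinct_of_unbounded (hK : IsFunctionField k K) {d : ℕ}
    {F : Fin (ν + 1) → MvPolynomial (Fin (ν + 1)) K}
    (hF : IsEndo d fun i => map (algebraMap K ℂ) (F i)) {x : Fin (ν + 1) → K} (hx : x ≠ 0)
    (hunb : ∀ B : ℤ, ∃ n, B < ht k (iter F x n)) (n n' : ℕ) (h : n ≠ n') :
    ¬ PEq (iter F x n) (iter F x n') := by
  have key : ∀ n p : ℕ, 0 < p → ¬ PEq (iter F x n) (iter F x (n + p)) := by
    intro n p hp hP
    have hhom := fun i => homog_of_endo hF i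
    -- the heights along the progression
    have h1 : ∀ j, ht k (iter F x (n + j + p)) = ht k (iter F x (n + j)) := by
      intro j
      have h2 : PEq (iter F (iter F x n) j) (iter F (iter F x (n + p)) j) :=
        Pool.Agent.Helper36.PEq.iter hhom hP j
      obtain ⟨c, hc, h3⟩ := h2
      rw [← iter_add, ← iter_add] at h3
      rw [show n + j + p = j + (n + p) by omega, h3, show j + n = n + j by omega]
      exact ht_smul hK hc (iter_ne_zeroK hF hx _)
    have h2 : ∀ t : ℕ, ht k (iter F x (n + t * p)) = ht k (iter F x n) := by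
      intro t
      induction t with
      | zero => simp
      | succ t ih =>
        rw [show n + (t + 1) * p = n + t * p + p by ring, h1, ih]
    obtain ⟨n₁, hn₁⟩ := ht_growth hK hF hx hunb (ht k (iter F x n) + 1)
    have h3 : n₁ ≤ n + n₁ * p := by
      have : n₁ * 1 ≤ n₁ * p := Nat.mul_le_mul le_rfl hp
      omega
    have h4 := hn₁ _ h3
    rw [h2] at h4
    have h5 := low_ht_nonneg hK (iter_ne_zeroK hF hx n)
    have h6 : (0 : ℤ) ≤ ((n + n₁ * p : ℕ) : ℤ) := by positivity
    nlinarith
  rcases Nat.lt_or_gt_of_ne h with h1 | h1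
  · obtain ⟨p, rfl⟩ := Nat.exists_eq_add_of_le h1.le
    exact key n p (by omega)
  · obtain ⟨p, rfl⟩ := Nat.exists_eq_add_of_le h1.le
    intro h2
    obtain ⟨c, hc, h3⟩ := h2
    apply key n' p (by omega)
    refine ⟨c⁻¹, inv_ne_zero hc, ?_⟩
    rw [h3, smul_smul, inv_mul_cancel₀ hc, one_smul]

end Pool.Agent.Helper30.TKN
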