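import Pool.Agent.Helper30.TKN.Gs

/-!
# The Jacobian determinant
-/

set_option autoImplicit false

namespace Pool.Agent.Helper30.TKN

open MvPolynomial
open Pool.Agent.Helper38.TQ

variable {ν : ℕ} {k : Type} [Field k]

theorem eval_jf (F : Fin (ν + 1) → MvPolynomial (Fin (ν + 1)) k) (z : Fin (ν + 1) → k) :
    eval z (jf F) = (jac F z).det := by
  unfold jf jac
  rw [RingHom.map_det]
  rfl

theorem jf_hom {d : ℕ} {F : Fin (ν + 1) → MvPolynomial (Fin (ν + 1)) k}
    (hF : ∀ i, (F i).IsHomogeneous d) : (jf F).IsHomogeneous ((ν + 1) * (d - 1)) := by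
  unfold jf
  rw [Matrix.det_apply]
  refine IsHomogeneous.sum _ _ _ fun σ _ => ?_
  have h1 : (∏ i, (Matrix.of fun i j => pderiv j (F i)) (σ i) i).IsHomogeneous
      ((ν + 1) * (d - 1)) := by
    have h2 := IsHomogeneous.prod Finset.univ
      (fun i => (Matrix.of fun i j => pderiv j (F i)) (σ i) i) (fun _ => d - 1)
      (fun i _ => (hF (σ i)).pderiv)
    simpa [Finset.sum_const, Finset.card_univ] using h2
  rcases Int.units_eq_one_or (Equiv.Perm.sign σ) with h | h
  · rw [h, one_smul]
    exact h1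
  · rw [h, Units.neg_smul, one_smul]
    exact h1.neg

end Pool.Agent.Helper30.TKN
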