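import Pool.Agent.Helper30.TKN.Good2
import Pool.Agent.Helper30.TKN.Jf
import Pool.Agent.Helper38.TQ.Good

/-!
# Orders of the Jacobian determinant
-/

set_option autoImplicit false

namespace Pool.Agent.Helper30.TKN

open MvPolynomial
open Pool.Agent.Helper16 (Place IsFunctionField)
open Pool.Agent.Helper36 (step iter iter_zero iter_succ iter_succ' iter_add iter_map)
open Pool.Agent.Helper38.TQ

section aux

variable {ν : ℕ} {k K : Type} [Field k] [Field K] [Algebra k K]

theorem JacK_eval_le {e : ℕ} {P : MvPolynomial (Fin (ν + 1)) K} (hP : P.IsHomogeneous e)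
    (b : Place k K) (y : Fin (ν + 1) → K) : b.val (eval y P) ≤ gs b P * nrm b y ^ e := by
  rw [eval_eq]
  refine b.val.map_sum_le fun m hm => ?_
  have hd : ∑ i ∈ m.support, m i = e := by
    have := hP (MvPolynomial.mem_support_iff.1 hm)
    rw [Finsupp.weight_apply] at this
    simpa [Finsupp.sum] using this
  rw [map_mul, map_prod]
  have h2 : ∏ i ∈ m.support, b.val (y i ^ m i) ≤ nrm b y ^ e := by
    rw [← hd, ← Finset.prod_pow_eq_pow_sum]
    refine Finset.prod_le_prod' fun i _ => ?_
    rw [map_pow]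
    exact pow_le_pow_left' (val_le_nrm b y i) _
  exact mul_le_mul' (formHeight_le b P m) h2

theorem JacK_three {ν d : ℕ} (hd : 1 ≤ d) (a : ℤ) :
    ((ν + 1) * (d - 1)) • a = ((ν : ℤ) + 1) * ((d : ℤ) - 1) * a := by
  rw [nsmul_eq_mul]
  push_cast [Nat.cast_sub hd]
  ring

theorem JacK_ne_zero {F : Fin (ν + 1) → MvPolynomial (Fin (ν + 1)) K} {y : Fin (ν + 1) → K}
    (hy : eval y (jf F) ≠ 0) : jf F ≠ 0 := by
  rintro h
  apply hy
  rw [h, map_zero]

/-- A lower bound of the order at every place. -/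
theorem JacK_lower {d : ℕ} {b : Place k K} {F : Fin (ν + 1) → MvPolynomial (Fin (ν + 1)) K}
    (hF : ∀ i, (F i).IsHomogeneous d) (hd : 1 ≤ d) {y : Fin (ν + 1) → K} (hy0 : y ≠ 0)
    (hy : eval y (jf F) ≠ 0) : - WithZero.log (gs b (jf F)) ≤ joK d F b y := by
  have h0 : b.val (eval y (jf F)) ≠ 0 := (map_ne_zero b.val).2 hy
  have hn : nrm b y ≠ 0 := nrm_ne_zero hy0
  have hg : gs b (jf F) ≠ 0 := (formHeight_pos (JacK_ne_zero hy)).ne'
  have h1 := JacK_eval_le (jf_hom hF) b y
  have h2 := (WithZero.log_le_log h0 (mul_ne_zero hg (pow_ne_zero _ hn))).2 h1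
  rw [WithZero.log_mul hg (pow_ne_zero _ hn), WithZero.log_pow, JacK_three (ν := ν) hd] at h2
  unfold joK
  linarith

theorem JacK_smul {d : ℕ} {b : Place k K} {F : Fin (ν + 1) → MvPolynomial (Fin (ν + 1)) K}
    (hF : ∀ i, (F i).IsHomogeneous d) (hd : 1 ≤ d) {y : Fin (ν + 1) → K} (hy0 : y ≠ 0)
    (hy : eval y (jf F) ≠ 0) {s : K} (hs : s ≠ 0) : joK d F b (s • y) = joK d F b y := by
  unfold joK
  rw [eval_smul_hom (jf_hom hF), log_nrm_smul b hs hy0, map_mul,
    WithZero.log_mul (by simpa using pow_ne_zero _ hs) (by simpa using hy), map_pow,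
    WithZero.log_pow, JacK_three (ν := ν) hd]
  ring

end aux

variable {ν : ℕ} {k K : Type} [Field k] [IsAlgClosed k] [Field K] [Algebra k K]

omit [IsAlgClosed k] in
/-- The order is not negative at a good place. -/
theorem joK_nonneg {d : ℕ} {b : Place k K} {F : Fin (ν + 1) → MvPolynomial (Fin (ν + 1)) K}
    (hF : ∀ i, (F i).IsHomogeneous d) (hd : 1 ≤ d) (h : Good d b F) {y : Fin (ν + 1) → K}
    (hy : eval y (jf F) ≠ 0) : 0 ≤ joK d F b y := by
  obtain ⟨f, hf⟩ := h
  have hJ := redP_jf hf.red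
  have h0 : b.val (eval y (jf F)) ≠ 0 := (map_ne_zero b.val).2 hy
  have hg : gs b (jf F) ≤ 1 := formHeight_gs_le fun m => hJ.integral m
  have h1 : b.val (eval y (jf F)) ≤ nrm b y ^ ((ν + 1) * (d - 1)) := by
    refine (JacK_eval_le (jf_hom hF) b y).trans ?_
    calc _ ≤ 1 * nrm b y ^ ((ν + 1) * (d - 1)) := mul_le_mul' hg le_rfl
      _ = _ := one_mul _
  have hn : nrm b y ^ ((ν + 1) * (d - 1)) ≠ 0 := by
    intro h3
    rw [h3, le_zero_iff] at h1
    exact h0 h1
  have h2 := (WithZero.log_le_log h0 hn).2 h1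
  rw [WithZero.log_pow, JacK_three (ν := ν) hd] at h2
  unfold joK
  linarith

/-- Contacts at a good place, when no cycle avoids the critical curve. -/
theorem one_le_sum_joK (hK : IsFunctionField k K) {d : ℕ} {F : Fin (ν + 1) → MvPolynomial (Fin (ν + 1)) K}
    (hF : ∀ i, (F i).IsHomogeneous d) {x : Fin (ν + 1) → K} (hx : ∀ n, iter F x n ≠ 0)
    (hne : NoEtale k d F x) {b : Place k K} (h : Good d b F) {i n : ℕ} (hin : i < n)
    (hcl : Same b (iter F x i) (iter F x n))
    (hJ : ∀ l, i ≤ l → l < n → eval (iter F x l) (jf F) ≠ 0) :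
    1 ≤ ∑ l ∈ Finset.Ico i n, joK d F b (iter F x l) := by
  have hgood := h
  obtain ⟨f, hf⟩ := h
  have hd1 : 1 ≤ d := by
    have := hf.endo.two_le
    omega
  obtain ⟨z, hz⟩ := exists_red hK b x (hx 0)
  have hred : ∀ l, Red b (iter F x l) (iter f z l) := fun l => hf.iter hF hz l
  have hpeq : PEq (iter f z i) (iter f z n) := by
    by_contra hcon
    obtain ⟨p, q, hpq⟩ := exists_minor (hred i) (hred n) hcon
    exact absurd (hcl p q) (not_lt.2 hpq.ge)
  obtain ⟨N, rfl⟩ := Nat.exists_eq_add_of_lt hin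
  have hdet := hne b f z hf hz i (N + 1) (Nat.succ_pos N) hpeq
  rw [det_mult, Finset.prod_eq_zero_iff] at hdet
  obtain ⟨l0, hl0, hl⟩ := hdet
  rw [Finset.mem_range] at hl0
  have hl1 : eval (iter f z (i + l0)) (jf f) = 0 := by
    rw [eval_jf]
    have e : iter f (iter f z i) l0 = iter f z (i + l0) := by
      rw [Nat.add_comm i l0]
      exact (Function.iterate_add_apply _ _ _ _).symm
    rw [← e]
    exact hl
  have hmem : i + l0 ∈ Finset.Ico i (i + N + 1) := by
    rw [Finset.mem_Ico]
    omega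
  have hJ0 : eval (iter F x (i + l0)) (jf F) ≠ 0 := hJ _ (by omega) (by omega)
  have h1 : 1 ≤ joK d F b (iter F x (i + l0)) := by
    obtain ⟨hz0, c, hc, hcx⟩ := hred (i + l0)
    rw [← JacK_smul hF hd1 (hx _) hJ0 hc]
    have hn1 : nrm b (c • iter F x (i + l0)) = 1 := nrm_red hz0 hcx
    have h2 := (redP_jf hf.red).eval (u := c • iter F x (i + l0)) (z := iter f z (i + l0)) hcx
    rw [hl1, map_zero, sub_zero] at h2
    have h3 : eval (c • iter F x (i + l0)) (jf F) ≠ 0 := by
      rw [eval_smul_hom (jf_hom hF)]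
      exact mul_ne_zero (pow_ne_zero _ hc) hJ0
    have h4 := (WithZero.log_lt_log ((map_ne_zero b.val).2 h3) one_ne_zero).2 h2
    rw [WithZero.log_one] at h4
    unfold joK
    rw [hn1, WithZero.log_one, mul_zero]
    omega
  refine h1.trans ?_
  refine Finset.single_le_sum (f := fun l => joK d F b (iter F x l)) (fun l hl => ?_) hmem
  rw [Finset.mem_Ico] at hl
  exact joK_nonneg hF hd1 hgood (hJ l hl.1 hl.2)

/-- The sum over the good places. -/
theorem finsum_joK_le (hK : IsFunctionField k K) {d : ℕ} {F : Fin (ν + 1) → MvPolynomial (Fin (ν + 1)) K}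
    (hF : ∀ i, (F i).IsHomogeneous d) (hd : 1 ≤ d) (B : Set (Place k K)) (hB : B.Finite) :
    ∃ C : ℤ, ∀ y : Fin (ν + 1) → K, y ≠ 0 → eval y (jf F) ≠ 0 →
      (Function.support fun b : Place k K => Set.indicator Bᶜ (fun b => joK d F b y) b).Finite ∧
        ∑ᶠ b : Place k K, Set.indicator Bᶜ (fun b => joK d F b y) b ≤
          ((ν : ℤ) + 1) * ((d : ℤ) - 1) * ht k y + C := by
  refine ⟨∑ b ∈ hB.toFinset, WithZero.log (gs b (jf F)), fun y hy0 hy => ?_⟩
  have h1 := nrm_support hK y hy0
  obtain ⟨h2, h3⟩ := finsum_log hK _ hy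
  have h4 : (Function.support fun b : Place k K =>
      ((ν : ℤ) + 1) * ((d : ℤ) - 1) * WithZero.log (nrm b y)).Finite := by
    refine h1.subset ?_
    intro b hb h
    apply hb
    have h' : WithZero.log (nrm b y) = 0 := h
    show ((ν : ℤ) + 1) * ((d : ℤ) - 1) * WithZero.log (nrm b y) = 0
    rw [h', mul_zero]
  have hsum : ∑ᶠ b : Place k K, joK d F b y = ((ν : ℤ) + 1) * ((d : ℤ) - 1) * ht k y := by
    unfold joK ht
    rw [finsum_sub_distrib h4 h2, h3, sub_zero, mul_finsum]
  have hsupp : (Function.support fun b : Place k K => joK d F b y).Finite := by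
    refine (h4.union h2).subset ?_
    intro b hb
    by_contra h
    rw [Set.mem_union, not_or, Function.notMem_support, Function.notMem_support] at h
    apply hb
    show ((ν : ℤ) + 1) * ((d : ℤ) - 1) * WithZero.log (nrm b y) - WithZero.log (b.val (eval y (jf F))) = 0
    rw [h.1, h.2]
    rfl
  have hsub : (Function.support fun b : Place k K =>
      Set.indicator Bᶜ (fun b => joK d F b y) b) ⊆
      Function.support fun b : Place k K => joK d F b y := by
    intro b hb h
    apply hb
    have h' : joK d F b y = 0 := h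
    show Set.indicator Bᶜ (fun b => joK d F b y) b = 0
    by_cases hbB : b ∈ Bᶜ
    · rw [Set.indicator_of_mem hbB, h']
    · rw [Set.indicator_of_notMem hbB]
  have hfin := hsupp.subset hsub
  refine ⟨hfin, ?_⟩
  have hsubB : (Function.support fun b : Place k K =>
      Set.indicator B (fun b => joK d F b y) b) ⊆ (hB.toFinset : Set (Place k K)) := by
    intro b hb
    rw [Set.Finite.coe_toFinset]
    by_contra hbB
    exact hb (Set.indicator_of_notMem hbB _)
  have hfinB := (Finset.finite_toSet _).subset hsubB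
  have hsplit : ∑ᶠ b : Place k K, joK d F b y =
      ∑ᶠ b : Place k K, Set.indicator Bᶜ (fun b => joK d F b y) b +
        ∑ᶠ b : Place k K, Set.indicator B (fun b => joK d F b y) b := by
    rw [← finsum_add_distrib hfin hfinB]
    refine finsum_congr fun b => ?_
    by_cases hb : b ∈ B
    · rw [Set.indicator_of_mem hb, Set.indicator_of_notMem (by simpa using hb), zero_add]
    · rw [Set.indicator_of_notMem hb, Set.indicator_of_mem (by simpa using hb), add_zero]
  have hlow : - ∑ b ∈ hB.toFinset, WithZero.log (gs b (jf F)) ≤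
      ∑ᶠ b : Place k K, Set.indicator B (fun b => joK d F b y) b := by
    rw [finsum_eq_sum_of_support_subset _ hsubB, ← Finset.sum_neg_distrib]
    refine Finset.sum_le_sum fun b hb => ?_
    rw [Set.indicator_of_mem (hB.mem_toFinset.1 hb)]
    exact JacK_lower hF hd hy0 hy
  rw [hsum] at hsplit
  linarith

end Pool.Agent.Helper30.TKN
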