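import Pool.Agent.Helper30.TKN.Growth
import Pool.Agent.Helper30.TKN.JacK
import Pool.Agent.Helper30.TKN.TruncN

/-!
# No curve contains infinitely many points of the orbit
-/

set_option autoImplicit false

namespace Pool.Agent.Helper30.TKN

open MvPolynomial
open Pool.Agent.Helper16 (Place IsFunctionField)
open Pool.Agent.Helper36 (step iter iter_zero iter_succ iter_succ' iter_add iter_map)
open Pool.Agent.Helper38.TQ

variable {ν : ℕ} {k K : Type} [Field k] [IsAlgClosed k] [Field K] [Algebra k K]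

/-- A count is at most a sum. -/
theorem ncard_le_finsum {α : Type*} {T : Set α} {f : α → ℤ} (hf0 : ∀ b, 0 ≤ f b)
    (hfs : (Function.support f).Finite) (hT : ∀ b ∈ T, 1 ≤ f b) :
    ((T.ncard : ℕ) : ℤ) ≤ ∑ᶠ b, f b := by
  classical
  have hTf : T.Finite := hfs.subset fun b hb => by
    rw [Function.mem_support]
    have := hT b hb
    omega
  have h7 : ∑ᶠ b, Set.indicator T (fun _ => (1 : ℤ)) b = (T.ncard : ℤ) := by
    rw [finsum_eq_sum_of_support_subset (s := hTf.toFinset)]
    · rw [Finset.sum_congr rfl (g := fun _ => (1 : ℤ))]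
      · rw [Finset.sum_const, nsmul_eq_mul, mul_one, Set.ncard_eq_toFinset_card _ hTf]
      · intro b hb
        exact Set.indicator_of_mem ((Set.Finite.mem_toFinset _).1 hb) _
    · intro b hb
      rw [Set.Finite.coe_toFinset]
      by_contra hcon
      exact hb (Set.indicator_of_notMem hcon _)
  rw [← h7]
  refine finsum_le_finsum' (hTf.subset fun b hb => ?_) hfs fun b => ?_
  · by_contra hcon
    exact hb (Set.indicator_of_notMem hcon _)
  · by_cases hb : b ∈ T
    · rw [Set.indicator_of_mem hb]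
      exact hT b hb
    · rw [Set.indicator_of_notMem hb]
      exact hf0 b

/-- The heights of the points of the orbit tend to infinity. -/
theorem ht_finite [Algebra K ℂ] (hK : IsFunctionField k K) {d : ℕ}
    {F : Fin (ν + 1) → MvPolynomial (Fin (ν + 1)) K}
    (hF : IsEndo d fun i => map (algebraMap K ℂ) (F i)) {x : Fin (ν + 1) → K} (hx : x ≠ 0)
    (hunb : ∀ B : ℤ, ∃ n, B < ht k (iter F x n)) (B : ℤ) :
    {n | ht k (iter F x n) ≤ B}.Finite := by
  obtain ⟨n₁, hn₁⟩ := ht_growth hK hF hx hunb (max B 0)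
  refine (Set.finite_lt_nat n₁).subset fun n hn => ?_
  by_contra hcon
  have h1 := hn₁ n (not_lt.1 hcon)
  have h2 : ht k (iter F x n) ≤ B := hn
  have h3 : B ≤ max B 0 := le_max_left _ _
  have h4 : (0 : ℤ) ≤ max B 0 := le_max_right _ _
  nlinarith

theorem no_curve [CharZero k] [Algebra K ℂ] (hK : IsFunctionField k K) {d : ℕ}
    {F : Fin (ν + 1) → MvPolynomial (Fin (ν + 1)) K}
    (hF : IsEndo d fun i => map (algebraMap K ℂ) (F i)) {x : Fin (ν + 1) → K} (hx : x ≠ 0)
    (hunb : ∀ B : ℤ, ∃ n, B < ht k (iter F x n))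
    (hcrit : {n | eval (iter F x n) (jf F) = 0}.Finite) (hne : NoEtale k d F x)
    {U : Ultrafilter ℕ} (hU : Free U) (hcurve : OnCurve U (iter F x)) : False := by
  classical
  have hne0 : ∀ n, iter F x n ≠ 0 := fun n => iter_ne_zeroK hF hx n
  have hdist := distinct_of_unbounded hK hF hx hunb
  have hhom : ∀ i, (F i).IsHomogeneous d := fun i => homog_of_endo hF i
  have hd1 : 1 ≤ d := by have := hF.two_le; omega
  have hbad := good_finite hK hF
  obtain ⟨n₀, hn₀⟩ : ∃ n₀, ∀ n, n₀ ≤ n → eval (iter F x n) (jf F) ≠ 0 := by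
    obtain ⟨m, hm⟩ := hcrit.bddAbove
    refine ⟨m + 1, fun n hn h => ?_⟩
    have := hm h
    omega
  obtain ⟨S, Γ, C, hS, hΓ, hmain⟩ := trunc_curve hK (x := iter F x) hne0
    (fun n n' h => hdist n n' h) (ht_finite hK hF hx hunb) hU hcurve (ν + 2) n₀
  obtain ⟨C₁, hC₁0, hC₁⟩ := sum_ht_le hK hF hx
  set B : Set (Place k K) := {b : Place k K | ¬ Good d b F} with hB
  obtain ⟨C₂, hC₂⟩ := finsum_joK_le hK hhom hd1 B hbad
  set K₂ : ℤ := C + (B.ncard : ℕ) with hK₂
  have hkey : ∀ n ∈ S, (∀ i ∈ Γ, i < n) → n₀ ≤ n →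
      ht k (iter F x n) ≤ (((ν : ℤ) + 1) * C₁ + max C₂ 0 + max K₂ 0) * (n + 1) := by
    intro n hn hlt hn0
    obtain ⟨-, h1⟩ := hmain n hn
    set J : Place k K → ℤ := fun b => ∑ l ∈ Finset.Ico n₀ n,
      Set.indicator Bᶜ (fun b => joK d F b (iter F x l)) b with hJ
    have hjo0 : ∀ b, ∀ l ∈ Finset.Ico n₀ n,
        0 ≤ Set.indicator Bᶜ (fun b => joK d F b (iter F x l)) b := by
      intro b l hl
      refine Set.indicator_nonneg (fun b hb => ?_) b
      have hb' : Good d b F := not_not.1 hb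
      exact joK_nonneg hhom hd1 hb' (hn₀ l (Finset.mem_Ico.1 hl).1)
    have hJ0 : ∀ b, 0 ≤ J b := fun b => Finset.sum_nonneg (hjo0 b)
    have hsupp2 : ∀ l ∈ Finset.Ico n₀ n, (Function.support fun b : Place k K =>
        Set.indicator Bᶜ (fun b => joK d F b (iter F x l)) b).Finite := fun l hl =>
      (hC₂ _ (hne0 l) (hn₀ l (Finset.mem_Ico.1 hl).1)).1
    have hJs : (Function.support J).Finite :=
      Pool.Agent.Helper30.TP.sum_support_finite (Finset.Ico n₀ n) (fun l (b : Place k K) =>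
        Set.indicator Bᶜ (fun b => joK d F b (iter F x l)) b) hsupp2
    set T : Set (Place k K) := {b | ∃ i ∈ Γ, Same b (iter F x i) (iter F x n)} with hT
    have hTJ : ∀ b ∈ T \ B, 1 ≤ J b := by
      rintro b ⟨⟨i, hi, hsame⟩, hb⟩
      have hb' : Good d b F := not_not.1 hb
      have h3 := one_le_sum_joK hK hhom hne0 hne hb' (hlt i hi) hsame
        (fun l hl _ => hn₀ l ((hΓ i hi).trans hl))
      refine h3.trans ?_
      have h5 : ∑ l ∈ Finset.Ico i n, joK d F b (iter F x l) =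
          ∑ l ∈ Finset.Ico i n, Set.indicator Bᶜ (fun b => joK d F b (iter F x l)) b :=
        Finset.sum_congr rfl fun l _ => (Set.indicator_of_mem
          (f := fun b => joK d F b (iter F x l)) (Set.mem_compl hb)).symm
      rw [h5]
      exact Finset.sum_le_sum_of_subset_of_nonneg
        (Finset.Ico_subset_Ico_left (hΓ i hi)) fun l hl _ => hjo0 b l hl
    have h2 := ncard_le_finsum hJ0 hJs hTJ
    have h3 : T.ncard ≤ (T \ B).ncard + B.ncard := by
      have hfin : (T \ B).Finite := hJs.subset fun b hb => by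
        rw [Function.mem_support]
        have := hTJ b hb
        omega
      have h4 : T ⊆ (T \ B) ∪ B := fun b hb => by
        by_cases hbB : b ∈ B
        · exact Or.inr hbB
        · exact Or.inl ⟨hb, hbB⟩
      exact (Set.ncard_le_ncard h4 (hfin.union hbad)).trans (Set.ncard_union_le _ _)
    have h8 : ∑ᶠ b, J b = ∑ l ∈ Finset.Ico n₀ n, ∑ᶠ b : Place k K,
        Set.indicator Bᶜ (fun b => joK d F b (iter F x l)) b := by
      rw [hJ, Pool.Agent.Helper30.TP.finsum_sum_swap _ _ hsupp2]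
    have h9 : ∑ l ∈ Finset.Ico n₀ n, ∑ᶠ b : Place k K,
        Set.indicator Bᶜ (fun b => joK d F b (iter F x l)) b ≤
          ((ν : ℤ) + 1) * ht k (iter F x n) +
            (((ν : ℤ) + 1) * C₁ + max C₂ 0) * (n + 1) := by
      have h10 : ∑ l ∈ Finset.Ico n₀ n, ∑ᶠ b : Place k K,
          Set.indicator Bᶜ (fun b => joK d F b (iter F x l)) b ≤
          ∑ l ∈ Finset.Ico n₀ n,
            (((ν : ℤ) + 1) * ((d : ℤ) - 1) * ht k (iter F x l) + max C₂ 0) :=
        Finset.sum_le_sum fun l hl =>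
          (hC₂ _ (hne0 l) (hn₀ l (Finset.mem_Ico.1 hl).1)).2.trans
            (add_le_add_right (le_max_left _ _) _)
      rw [Finset.sum_add_distrib, Finset.sum_const, Nat.card_Ico, ← Finset.mul_sum,
        nsmul_eq_mul] at h10
      have h11 := hC₁ n₀ n hn0
      have h12 : ((n - n₀ : ℕ) : ℤ) * max C₂ 0 ≤ ((n : ℤ) + 1) * max C₂ 0 :=
        mul_le_mul_of_nonneg_right (by omega) (le_max_right _ _)
      have h13 := mul_le_mul_of_nonneg_left h11 (show (0 : ℤ) ≤ (ν : ℤ) + 1 by positivity)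
      linarith [h10, h12, h13]
    have h14 : max K₂ 0 ≤ max K₂ 0 * ((n : ℤ) + 1) :=
      le_mul_of_one_le_right (le_max_right _ _) (by omega)
    have h15 : K₂ ≤ max K₂ 0 := le_max_left _ _
    have h3' : ((T.ncard : ℕ) : ℤ) ≤ ((T \ B).ncard : ℕ) + (B.ncard : ℕ) := by exact_mod_cast h3
    rw [h8] at h2
    push_cast at h1
    rw [hK₂] at h15 h14
    linarith
  obtain ⟨n₁, hn₁⟩ := ht_growth hK hF hx hunb (((ν : ℤ) + 1) * C₁ + max C₂ 0 + max K₂ 0)
  obtain ⟨n, hnS, hn⟩ := (hS.sdiff (Set.finite_le_nat (Γ.sup id + n₁ + n₀))).nonempty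
  have hnM' : ¬ n ≤ Γ.sup id + n₁ + n₀ := hn
  have h1 := hkey n hnS (fun i hi => by
    have : i ≤ Γ.sup id := Finset.le_sup (f := id) hi
    omega) (by omega)
  have h2 := hn₁ n (by omega)
  exact absurd h1 (not_le.2 h2)

end Pool.Agent.Helper30.TKN
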